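import Pool.Agent.U154.TP.Am2
import Pool.Agent.U154.NI.One
import Pool.Agent.H974R2.Split
import Pool.Agent.W605.EN.Sec1

/-!
Borel-Cantelli lemmas for families of events.
-/

set_option autoImplicit false

namespace Pool.Agent.U154.ER

open H974 Finset Filter Topology MeasureTheory Pool.Agent.W819.EN Real
open Pool.Agent.U154.UT (ok2 T B)
open Pool.Agent.N956.PL (crit op op_inter bc1 bc2 crit_op meas_op)
open Pool.Agent.W605.EN (Pr_forall)

theorem rp2 (k : ℕ) (θ : ℝ) : ((2:ℝ) ^ k) ^ θ = ((2:ℝ) ^ θ) ^ k := by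
  rw [← rpow_natCast, ← rpow_mul (by norm_num), mul_comm, rpow_mul (by norm_num), rpow_natCast]

theorem summ {θ : ℝ} (hθ : 0 < θ) : Summable (fun k : ℕ => ((2:ℝ) ^ k) ^ (-θ)) := by
  simp only [rp2]
  apply summable_geometric_of_lt_one (by positivity)
  exact rpow_lt_one_of_one_lt_of_neg (by norm_num) (by linarith)

/-- the number of the dyadic scales -/
noncomputable def Jm (I : ℝ) (k : ℕ) : ℕ := ⌊((2:ℝ) ^ (k + 1)) ^ I / log 2⌋₊

theorem union_as {I θ C : ℝ} (hI : 0 < I) (hθ : I < θ) (hC : 0 ≤ C)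
    (A : ℕ → ℕ → Finset Edg → Prop) (S : ℕ → Finset Edg) (k0 : ℕ)
    (h : ∀ k, k0 ≤ k → ∀ i, i ≤ Jm I k → Pr P2 (S k) (A k i) ≤ C * ((2:ℝ) ^ k) ^ (-θ)) :
    ∀ᵐ ω ∂crit, ∀ᶠ k in atTop, ∀ i ≤ Jm I k, ¬ A k i (op (S k) ω) := by
  have hl : 0 < log 2 := log_pos (by norm_num)
  have hs : Summable (fun k => Pr P2 (S k) (fun F => ∃ i ∈ range (Jm I k + 1), A k i F)) := by
    have hsum := (summ (θ := θ - I) (by linarith)).mul_left ((2 ^ I / log 2 + 1) * C)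
    refine Summable.of_norm_bounded_eventually_nat hsum ?_
    filter_upwards [eventually_ge_atTop k0] with k hk
    rw [Real.norm_eq_abs, abs_of_nonneg (Pr_nonneg ok2 _ _)]
    refine (H974.Pr_exists_le ok2 (S k) (range (Jm I k + 1)) (A k)).trans ?_
    have h1 : ∑ i ∈ range (Jm I k + 1), Pr P2 (S k) (A k i) ≤
        ∑ _i ∈ range (Jm I k + 1), C * ((2:ℝ) ^ k) ^ (-θ) :=
      Finset.sum_le_sum fun i hi => h k hk i (by have := Finset.mem_range.1 hi; omega)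
    rw [Finset.sum_const, Finset.card_range, nsmul_eq_mul] at h1
    refine h1.trans ?_
    have h2 : (((Jm I k + 1 : ℕ)) : ℝ) ≤ (2 ^ I / log 2 + 1) * ((2:ℝ) ^ k) ^ I := by
      have h3 : (Jm I k : ℝ) ≤ ((2:ℝ) ^ (k + 1)) ^ I / log 2 := Nat.floor_le (by positivity)
      have h4 : (1:ℝ) ≤ ((2:ℝ) ^ k) ^ I := one_le_rpow (one_le_pow₀ (by norm_num)) hI.le
      have h5 : ((2:ℝ) ^ (k + 1)) ^ I = 2 ^ I * ((2:ℝ) ^ k) ^ I := by
        rw [pow_succ, mul_rpow (by positivity) (by norm_num), mul_comm]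
      push_cast
      rw [h5] at h3
      calc (Jm I k : ℝ) + 1 ≤ 2 ^ I * ((2:ℝ) ^ k) ^ I / log 2 + ((2:ℝ) ^ k) ^ I := by linarith
        _ = _ := by ring
    calc _ ≤ ((2 ^ I / log 2 + 1) * ((2:ℝ) ^ k) ^ I) * (C * ((2:ℝ) ^ k) ^ (-θ)) :=
          mul_le_mul_of_nonneg_right h2 (by positivity)
      _ = _ := by
        rw [show -(θ - I) = I + -θ by ring, rpow_add (by positivity)]
        ring
  have hb := bc1 S (fun k F => ∃ i ∈ range (Jm I k + 1), A k i F) hs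
  filter_upwards [hb] with ω hω
  filter_upwards [hω] with k hk i hi hA
  exact hk ⟨i, Finset.mem_range.2 (by omega), hA⟩

/-- the number of the disjoint annuli -/
noncomputable def mm (I : ℝ) (k : ℕ) : ℕ := ⌊((2:ℝ) ^ k) ^ I / ((k + 3) * log 2)⌋₊

/-- the radii of the disjoint annuli -/
def cc (k i : ℕ) : ℕ := (2 ^ (k + 3)) ^ i

theorem growth {I θ c : ℝ} (hθ0 : 0 ≤ θ) (hθ : θ < I) (hc : 0 < c) :
    ∀ᶠ k : ℕ in atTop, (k:ℝ) ≤ c * ((2:ℝ) ^ k) ^ (-θ) * mm I k := by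
  have hl : 0 < log 2 := log_pos (by norm_num)
  have hl1 : log 2 ≤ 1 := by
    have := log_two_lt_d9
    linarith
  obtain ⟨a, ha⟩ : ∃ a : ℝ, a = 2 ^ (I - θ) := ⟨_, rfl⟩
  have ha1 : 1 < a := by rw [ha]; exact one_lt_rpow (by norm_num) (by linarith)
  have ht := tendsto_pow_const_div_const_pow_of_one_lt 2 ha1
  have hpos : 0 < c / (4 * (1 + c)) := by positivity
  filter_upwards [ht.eventually (gt_mem_nhds hpos), eventually_ge_atTop 1] with k hk hk1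
  have hkR : (1:ℝ) ≤ k := by exact_mod_cast hk1
  have hak : 0 < a ^ k := by positivity
  rw [div_lt_iff₀ hak] at hk
  have hX : (2:ℝ) ^ k = 2 ^ k := rfl
  have m1 : ((2:ℝ) ^ k) ^ I / ((k + 3) * log 2) - 1 ≤ mm I k := by
    have := Nat.lt_floor_add_one (((2:ℝ) ^ k) ^ I / ((k + 3) * log 2))
    unfold mm
    linarith
  have m2 : ((2:ℝ) ^ k) ^ (-θ) ≤ 1 := by
    apply rpow_le_one_of_one_le_of_nonpos (one_le_pow₀ (by norm_num)) (by linarith)
  have m3 : c * ((2:ℝ) ^ k) ^ (-θ) * (((2:ℝ) ^ k) ^ I / ((k + 3) * log 2) - 1) ≤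
      c * ((2:ℝ) ^ k) ^ (-θ) * mm I k := mul_le_mul_of_nonneg_left m1 (by positivity)
  have m4 : ((2:ℝ) ^ k) ^ (-θ) * ((2:ℝ) ^ k) ^ I = a ^ k := by
    rw [← rpow_add (by positivity), ha, ← rp2]
    congr 1
    ring
  have m5 : c * ((2:ℝ) ^ k) ^ (-θ) * (((2:ℝ) ^ k) ^ I / ((k + 3) * log 2) - 1) =
      c * (a ^ k / ((k + 3) * log 2)) - c * ((2:ℝ) ^ k) ^ (-θ) := by
    rw [← m4]
    ring
  have m6 : (1 + c) * k ≤ c * (a ^ k / ((k + 3) * log 2)) := by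
    rw [← mul_div_assoc, le_div_iff₀ (by positivity)]
    have n1 : (k + 3) * log 2 ≤ 4 * k := by nlinarith
    have n2 : (1 + c) * k * ((k + 3) * log 2) ≤ (1 + c) * k * (4 * k) :=
      mul_le_mul_of_nonneg_left n1 (by positivity)
    have n3 : (1 + c) * k * (4 * k) = (4 * (1 + c)) * (k:ℝ) ^ 2 := by ring
    have n4 : (4 * (1 + c)) * (k:ℝ) ^ 2 ≤ (4 * (1 + c)) * (c / (4 * (1 + c)) * a ^ k) :=
      mul_le_mul_of_nonneg_left hk.le (by positivity)
    have n5 : (4 * (1 + c)) * (c / (4 * (1 + c)) * a ^ k) = c * a ^ k := by field_simp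
    linarith
  have m7 : c * ((2:ℝ) ^ k) ^ (-θ) ≤ c * 1 := mul_le_mul_of_nonneg_left m2 hc.le
  nlinarith

theorem cc_pos (k i : ℕ) : 1 ≤ cc k i := Nat.one_le_pow _ _ (by positivity)

theorem cc_lt {k i j : ℕ} (h : i < j) : 2 ^ (k + 2) * cc k i + 1 ≤ cc k j := by
  have h1 : cc k (i + 1) ≤ cc k j := Nat.pow_le_pow_right (by positivity) h
  have h2 : cc k (i + 1) = 2 * (2 ^ (k + 2) * cc k i) := by
    unfold cc
    rw [pow_succ (2 ^ (k + 3)) i, pow_succ 2 (k + 2)]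
    ring
  have h3 : 1 ≤ 2 ^ (k + 2) * cc k i := Nat.mul_pos (by positivity) (cc_pos k i)
  omega

theorem exist_as {I θ c : ℝ} (hθ0 : 0 ≤ θ) (hθ : θ < I) (hc : 0 < c)
    (G : ℕ → ℕ → Finset Edg → Prop) (S : ℕ → Finset Edg) (k0 : ℕ)
    (hS : ∀ k i, i < mm I k → B ((2 ^ (k + 2) * cc k i : ℕ) : ℤ) ⊆ S k)
    (hG : ∀ k, k0 ≤ k → ∀ i, ∀ F F' : Finset Edg, (∀ e, e ∈ B ((2 ^ (k + 2) * cc k i : ℕ) : ℤ) →
      e ∉ B ((cc k i : ℤ) - 1) → (e ∈ F ↔ e ∈ F')) → (G k i F ↔ G k i F'))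
    (h : ∀ k, k0 ≤ k → ∀ i, i < mm I k → c * ((2:ℝ) ^ k) ^ (-θ) ≤ Pr P2 (S k) (G k i)) :
    ∀ᵐ ω ∂crit, ∀ᶠ k in atTop, ∃ i < mm I k, G k i (op (S k) ω) := by
  classical
  have hs : Summable (fun k => Pr P2 (S k) (fun F => ∀ i ∈ range (mm I k), ¬ G k i F)) := by
    have hsum : Summable (fun k : ℕ => (exp (-1)) ^ k) :=
      summable_geometric_of_lt_one (exp_pos _).le (exp_lt_one_iff.2 (by norm_num))
    refine Summable.of_norm_bounded_eventually_nat hsum ?_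
    filter_upwards [eventually_ge_atTop k0, growth hθ0 hθ hc] with k hk hg
    rw [Real.norm_eq_abs, abs_of_nonneg (Pr_nonneg ok2 _ _)]
    rw [Pr_forall P2 (S k) (fun i => B ((2 ^ (k + 2) * cc k i : ℕ) : ℤ) \ B ((cc k i : ℤ) - 1))
      (fun i F => ¬ G k i F) (range (mm I k))
      (fun i hi => sdiff_subset.trans (hS k i (Finset.mem_range.1 hi)))
      (fun i _ j _ hij => by
        have key : ∀ i j : ℕ, i < j → Disjoint
            (B ((2 ^ (k + 2) * cc k i : ℕ) : ℤ) \ B ((cc k i : ℤ) - 1))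
            (B ((2 ^ (k + 2) * cc k j : ℕ) : ℤ) \ B ((cc k j : ℤ) - 1)) := by
          intro i j hij
          rw [Finset.disjoint_left]
          intro e he he'
          have h1 := cc_lt (k := k) hij
          have h2 : ((2 ^ (k + 2) * cc k i : ℕ) : ℤ) ≤ (cc k j : ℤ) - 1 := by
            have : ((2 ^ (k + 2) * cc k i + 1 : ℕ) : ℤ) ≤ (cc k j : ℤ) := by exact_mod_cast h1
            push_cast at this ⊢
            linarith
          exact (mem_sdiff.1 he').2 (Pool.Agent.U154.TP.B_mono h2 (mem_sdiff.1 he).1)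
        rcases lt_or_gt_of_ne hij with h | h
        · exact key i j h
        · exact (key j i h).symm)
      (fun i _ F G' _ hG' => by
        apply not_congr
        apply hG k hk i
        intro e h1 h2
        have h3 : e ∈ G' := hG' (mem_sdiff.2 ⟨h1, h2⟩)
        rw [mem_inter]
        exact ⟨fun h4 => ⟨h4, h3⟩, fun h4 => h4.1⟩)]
    obtain ⟨p, hp⟩ : ∃ p : ℝ, p = c * ((2:ℝ) ^ k) ^ (-θ) := ⟨_, rfl⟩
    rw [← hp] at hg
    have h1 : ∏ i ∈ range (mm I k), Pr P2 (S k) (fun F => ¬ G k i F) ≤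
        ∏ _i ∈ range (mm I k), exp (-p) := by
      apply Finset.prod_le_prod
      · intro i _
        exact Pr_nonneg ok2 _ _
      · intro i hi
        rw [Pr_not]
        have h2 := h k hk i (Finset.mem_range.1 hi)
        have h3 := add_one_le_exp (-p)
        rw [← hp] at h2
        linarith
    rw [Finset.prod_const, Finset.card_range] at h1
    refine h1.trans ?_
    rw [← exp_nat_mul, ← exp_nat_mul]
    apply exp_le_exp.2
    nlinarith
  have hb := bc1 S (fun k F => ∀ i ∈ range (mm I k), ¬ G k i F) hs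
  filter_upwards [hb] with ω hω
  filter_upwards [hω] with k hk
  by_contra hcon
  apply hk
  intro i hi hGi
  exact hcon ⟨i, Finset.mem_range.1 hi, hGi⟩

theorem T_op {m M : ℕ} (h : m ≤ M) (ω : Edg → Bool) :
    T m (op (B (M:ℤ)) ω) = Pool.Agent.U154.NI.Lw ω m := by
  have h1 : B (M:ℤ) = boxE M := Pool.Agent.U154.NI.bx_eq M
  rw [h1]
  exact Pool.Agent.U154.NI.Lw_op h ω

theorem tlog : Tendsto (fun b : ℕ => Nat.log 2 b) atTop atTop :=
  tendsto_atTop_atTop.2 fun b => ⟨2 ^ b, fun a ha => Nat.le_log_of_pow_le (by norm_num) ha⟩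

theorem lg {b k : ℕ} (hb : 1 ≤ b) (hk : k = Nat.log 2 b) : 2 ^ k ≤ b ∧ b < 2 ^ (k + 1) ∧
    (k:ℝ) * log 2 ≤ log b ∧ log b ≤ ((k:ℝ) + 1) * log 2 := by
  have h1 : 2 ^ k ≤ b := by rw [hk]; exact Nat.pow_log_le_self 2 (by omega)
  have h2 : b < 2 ^ (k + 1) := by rw [hk]; exact Nat.lt_pow_succ_log_self (by norm_num) b
  have hbp : (0:ℝ) < b := by exact_mod_cast hb
  refine ⟨h1, h2, ?_, ?_⟩
  · rw [← log_pow]
    apply log_le_log (by positivity)
    exact_mod_cast h1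
  · have : ((k:ℝ) + 1) * log 2 = log ((2:ℝ) ^ (k + 1)) := by
      rw [log_pow]
      push_cast
      ring
    rw [this]
    apply log_le_log hbp
    exact_mod_cast h2.le

theorem le_Jm {I : ℝ} (hI : 0 < I) {b k r i : ℕ} (hb : b < 2 ^ (k + 1))
    (hr : (r:ℝ) ≤ exp ((b:ℝ) ^ I)) (hi : 2 ^ i ≤ r) : i ≤ Jm I k := by
  have hl : 0 < log 2 := log_pos (by norm_num)
  apply Nat.le_floor
  rw [le_div_iff₀ hl, ← log_pow]
  have h1 : ((2:ℝ) ^ i) ≤ exp ((b:ℝ) ^ I) := by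
    refine le_trans ?_ hr
    exact_mod_cast hi
  have h2 := log_le_log (by positivity) h1
  rw [log_exp] at h2
  refine h2.trans ?_
  apply rpow_le_rpow (by positivity) _ hI.le
  exact_mod_cast hb.le

theorem cc_le {I : ℝ} (hI : 0 < I) {k i b : ℕ} (hi : i < mm I k) (hb : 2 ^ k ≤ b) :
    ((2 * cc k i : ℕ) : ℝ) ≤ exp ((b:ℝ) ^ I) := by
  have hl : 0 < log 2 := log_pos (by norm_num)
  have h1 : ((i:ℝ) + 1) ≤ ((2:ℝ) ^ k) ^ I / ((k + 3) * log 2) := by
    have h2 : ((mm I k : ℕ) : ℝ) ≤ ((2:ℝ) ^ k) ^ I / ((k + 3) * log 2) :=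
      Nat.floor_le (by positivity)
    have h3 : ((i + 1 : ℕ) : ℝ) ≤ (mm I k : ℕ) := by exact_mod_cast hi
    push_cast at h3
    linarith
  rw [le_div_iff₀ (by positivity)] at h1
  have h4 : ((2 * cc k i : ℕ) : ℝ) = exp ((1 + (k + 3) * i : ℕ) * log 2) := by
    rw [← log_pow, exp_log (by positivity)]
    unfold cc
    push_cast
    rw [pow_add (2:ℝ) 1 ((k + 3) * i), pow_one, pow_mul]
  rw [h4]
  apply exp_le_exp.2
  have h5 : ((2:ℝ) ^ k) ^ I ≤ (b:ℝ) ^ I := by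
    apply rpow_le_rpow (by positivity) _ hI.le
    exact_mod_cast hb
  refine le_trans ?_ (h1.trans h5)
  push_cast
  have h6 : (1 + ((k:ℝ) + 3) * i) ≤ ((i:ℝ) + 1) * (k + 3) := by
    have : (0:ℝ) ≤ k := Nat.cast_nonneg k
    nlinarith
  have h7 := mul_le_mul_of_nonneg_right h6 hl.le
  linarith

theorem cc_S {I : ℝ} {k i : ℕ} (hi : i < mm I k) :
    2 ^ (k + 2) * cc k i ≤ 2 ^ (k + 2) * cc k (mm I k) :=
  Nat.mul_le_mul_left _ (Nat.pow_le_pow_right (by positivity) hi.le)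

end Pool.Agent.U154.ER
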