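import Pool.Agent.U154.TP.Am2
import Pool.Agent.W405.EN.Dev
import Pool.Agent.U154.UT.Pl

/-!
Densities of the layers in one annulus: lower bound on the probability.
-/

set_option autoImplicit false

namespace Pool.Agent.U154.ER

open H974 Finset Filter Topology MeasureTheory Pool.Agent.W819.EN
open Pool.Agent.U154.UT (ok2 T B legA legB)
open Pool.Agent.U154.TP
open Pool.Agent.W405.EN (t_LDP exists_h)

theorem am_exp (s : ℝ) : ∃ c C : ℝ, 0 < c ∧ 0 < C ∧ ∀ r R : ℕ, 1 ≤ r → r ≤ R →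
    ∀ S : Finset Edg, B R \ B (r - 1) ⊆ S →
    c * ((R:ℝ) / r) ^ Lam s ≤ Ex P2 S (fun F => Real.exp (s * U r R F)) ∧
    Ex P2 S (fun F => Real.exp (s * U r R F)) ≤ C * ((R:ℝ) / r) ^ Lam s := by
  obtain ⟨c, C, hc, hC, h⟩ := am (Real.exp_pos s)
  refine ⟨c, C, hc, hC, fun r R hr hR S hS => ?_⟩
  have h1 := h r R hr hR
  rw [← H_eq hR hS] at h1
  have e : ∀ F, Real.exp s ^ U r R F = Real.exp (s * U r R F) := by
    intro F
    rw [← Real.exp_nat_mul, mul_comm]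
  simp only [e] at h1
  exact h1

/-- LDP lower bound in one annulus -/
theorem dev (s δ ε : ℝ) (hδ : 0 < δ) (hε : 0 < ε) : ∃ L0 : ℝ, ∀ r R : ℕ, 1 ≤ r → r ≤ R →
    L0 ≤ (R:ℝ) / r → ∀ S : Finset Edg, B R \ B (r - 1) ⊆ S →
    ((R:ℝ) / r) ^ (-(gam s) - ε) ≤
      Pr P2 S (fun F => |(U r R F : ℝ) - dL s * Real.log ((R:ℝ) / r)| ≤
        δ * Real.log ((R:ℝ) / r)) := by
  have hA := legA
  obtain ⟨ν, hν⟩ : ∃ ν : ℝ, ν = dL s := ⟨_, rfl⟩
  obtain ⟨d, hd⟩ : ∃ d : ℝ, d = min δ (ε / (4 * (|s| + 1))) := ⟨_, rfl⟩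
  have hs1 : 0 < 4 * (|s| + 1) := by positivity
  have hd0 : 0 < d := by rw [hd]; exact lt_min hδ (by positivity)
  have hdδ : d ≤ δ := by rw [hd]; exact min_le_left _ _
  have hsd : |s| * d ≤ ε / 4 := by
    have h2 : d ≤ ε / (4 * (|s| + 1)) := by rw [hd]; exact min_le_right _ _
    rw [le_div_iff₀ hs1] at h2
    nlinarith [abs_nonneg s]
  obtain ⟨h, hh, hp, hm⟩ := exists_h hA s d hd0
  rw [← hν] at hp hm
  obtain ⟨c, C', hc, hC', hm0⟩ := am_exp s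
  obtain ⟨c1, C1, hc1, hC1, hm1⟩ := am_exp (s + h)
  obtain ⟨c2, C2, hc2, hC2, hm2⟩ := am_exp (s - h)
  -- thresholds
  have ht1 : Tendsto (fun b : ℝ => (C1 + C2) * b ^ (-(h * d / 2))) atTop (𝓝 ((C1 + C2) * 0)) :=
    (tendsto_rpow_neg_atTop (by positivity : 0 < h * d / 2)).const_mul _
  rw [mul_zero] at ht1
  have ht2 : Tendsto (fun b : ℝ => b ^ (-(ε / 2))) atTop (𝓝 0) :=
    tendsto_rpow_neg_atTop (by positivity : 0 < ε / 2)
  have hev : ∀ᶠ b : ℝ in atTop, (C1 + C2) * b ^ (-(h * d / 2)) < c / 2 ∧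
      b ^ (-(ε / 2)) < c / 2 ∧ 4 ≤ b :=
    (ht1.eventually (gt_mem_nhds (by positivity))).and
      ((ht2.eventually (gt_mem_nhds (by positivity))).and (eventually_ge_atTop 4))
  obtain ⟨b0, hb0⟩ := eventually_atTop.mp hev
  refine ⟨b0, fun r R hr hR hL0 S hS => ?_⟩
  obtain ⟨b, hb⟩ : ∃ b : ℝ, b = (R:ℝ) / r := ⟨_, rfl⟩
  rw [← hb] at hL0 ⊢
  obtain ⟨k1, k2, k3⟩ := hb0 b hL0
  have hbp : (0 : ℝ) < b := by linarith
  have hb1 : (1 : ℝ) ≤ b := by linarith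
  have hL : 0 < Real.log b := Real.log_pos (by linarith)
  have hexp : ∀ x : ℝ, Real.exp (x * Real.log b) = b ^ x := by
    intro x
    rw [Real.rpow_def_of_pos hbp, mul_comm]
  obtain ⟨X, hX⟩ : ∃ X : Finset Edg → ℝ, X = fun F => (U r R F : ℝ) := ⟨_, rfl⟩
  have hldp := t_LDP S X s ν d h (Real.log b) hh hL hd0
  have a0 := (hm0 r R hr hR S hS).1
  have a1 := (hm1 r R hr hR S hS).2
  have a2 := (hm2 r R hr hR S hS).2
  rw [← hb] at a0 a1 a2
  have f0 : ∀ x : ℝ, (fun F => Real.exp (x * X F)) = (fun F => Real.exp (x * U r R F)) := by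
    intro x; rw [hX]
  rw [f0, f0, f0] at hldp
  have e1 : Real.exp (-(h * (ν + d) * Real.log b)) = b ^ (-(h * (ν + d))) := by
    rw [← hexp]; congr 1; ring
  rw [e1, hexp, hexp] at hldp
  -- the second term
  have t1 : Ex P2 S (fun F => Real.exp ((s + h) * U r R F)) *
      b ^ (-(h * (ν + d))) ≤ C1 * b ^ (Lam s + -(h * d / 2)) := by
    calc _ ≤ (C1 * b ^ (Lam (s + h))) * b ^ (-(h * (ν + d))) :=
          mul_le_mul_of_nonneg_right a1 (by positivity)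
      _ = C1 * b ^ (Lam (s + h) + -(h * (ν + d))) := by
          rw [mul_assoc, ← Real.rpow_add hbp]
      _ ≤ C1 * b ^ (Lam s + -(h * d / 2)) := by
          apply mul_le_mul_of_nonneg_left _ hC1.le
          apply Real.rpow_le_rpow_of_exponent_le hb1
          nlinarith
  have t2 : Ex P2 S (fun F => Real.exp ((s - h) * U r R F)) *
      b ^ (h * (ν - d)) ≤ C2 * b ^ (Lam s + -(h * d / 2)) := by
    calc _ ≤ (C2 * b ^ (Lam (s - h))) * b ^ (h * (ν - d)) :=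
          mul_le_mul_of_nonneg_right a2 (by positivity)
      _ = C2 * b ^ (Lam (s - h) + h * (ν - d)) := by
          rw [mul_assoc, ← Real.rpow_add hbp]
      _ ≤ C2 * b ^ (Lam s + -(h * d / 2)) := by
          apply mul_le_mul_of_nonneg_left _ hC2.le
          apply Real.rpow_le_rpow_of_exponent_le hb1
          nlinarith
  rw [Real.rpow_add hbp] at t1 t2
  obtain ⟨B0, hB⟩ : ∃ B0 : ℝ, B0 = b ^ (Lam s) := ⟨_, rfl⟩
  have hB0 : 0 < B0 := by rw [hB]; positivity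
  obtain ⟨D, hD⟩ : ∃ D : ℝ, D = b ^ (-(h * d / 2)) := ⟨_, rfl⟩
  rw [← hB, ← hD] at t1 t2
  rw [← hB] at a0
  rw [← hD] at k1
  obtain ⟨P, hP⟩ : ∃ P : ℝ, P = Pr P2 S (fun F => |X F - ν * Real.log b| ≤ d * Real.log b) :=
    ⟨_, rfl⟩
  rw [← hP] at hldp
  have low : c / 2 * B0 ≤ b ^ (s * ν + |s| * d) * P := by
    have h6 : (C1 + C2) * D * B0 ≤ c / 2 * B0 := mul_le_mul_of_nonneg_right k1.le hB0.le
    have h7 : c * B0 - C1 * (B0 * D) - C2 * (B0 * D) ≤ b ^ (s * ν + |s| * d) * P := by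
      linarith
    linarith
  have hPmono : P ≤ Pr P2 S (fun F => |(U r R F : ℝ) - dL s * Real.log b| ≤ δ * Real.log b) := by
    rw [hP, hX, hν]
    exact Pr_mono ok2 fun F _ hF => hF.trans (mul_le_mul_of_nonneg_right hdδ hL.le)
  have hfin : b ^ (-(gam s) - ε) ≤ c / 2 * B0 * b ^ (-(s * ν + |s| * d)) := by
    have h8 : b ^ (-(ε / 2)) * b ^ (Lam s + -(s * ν + |s| * d)) ≤
        c / 2 * b ^ (Lam s + -(s * ν + |s| * d)) :=
      mul_le_mul_of_nonneg_right k2.le (by positivity)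
    calc b ^ (-(gam s) - ε) ≤
        b ^ (-(ε / 2) + (Lam s + -(s * ν + |s| * d))) := by
          apply Real.rpow_le_rpow_of_exponent_le hb1
          unfold gam
          rw [← hν]
          linarith
      _ = b ^ (-(ε / 2)) * b ^ (Lam s + -(s * ν + |s| * d)) :=
          Real.rpow_add hbp _ _
      _ ≤ c / 2 * b ^ (Lam s + -(s * ν + |s| * d)) := h8
      _ = c / 2 * B0 * b ^ (-(s * ν + |s| * d)) := by
          rw [Real.rpow_add hbp, mul_assoc, hB]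
  have hinv : b ^ (s * ν + |s| * d) * b ^ (-(s * ν + |s| * d)) = 1 := by
    rw [← Real.rpow_add hbp, add_neg_cancel, Real.rpow_zero]
  calc b ^ (-(gam s) - ε) ≤ c / 2 * B0 * b ^ (-(s * ν + |s| * d)) := hfin
    _ ≤ (b ^ (s * ν + |s| * d) * P) * b ^ (-(s * ν + |s| * d)) :=
        mul_le_mul_of_nonneg_right low (by positivity)
    _ = P * (b ^ (s * ν + |s| * d) * b ^ (-(s * ν + |s| * d))) := by ring
    _ = P := by rw [hinv, mul_one]
    _ ≤ _ := hPmono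

end Pool.Agent.U154.ER
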