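import Pool.Agent.U154.UT.Pl

/-!
The set of the densities of rate at most `a`.
-/

set_option autoImplicit false

namespace Pool.Agent.U154.ER

open Filter Topology Pool.Agent.W819.EN Real
open Pool.Agent.U154.UT (legA legB)
open Pool.Agent.W933.EN (dL_pos)

/-- the densities of rate at most `a` -/
def JJ (a : ℝ) : Set ℝ := {v | 0 ≤ v ∧ Rate v ≤ a}

theorem gam_pos' {s : ℝ} (hs : s ≠ 0) : 0 < gam s := by
  rcases lt_or_gt_of_ne hs with h | h
  · have h1 := legB.gneg (Set.mem_Iic.2 h.le) (Set.mem_Iic.2 le_rfl) h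
    rwa [legB.gzero] at h1
  · have h1 := legB.gpos (Set.mem_Ici.2 le_rfl) (Set.mem_Ici.2 h.le) h
    rwa [legB.gzero] at h1

theorem bdd {s : ℝ} (hs : s ≠ 0) : BddAbove (Set.range (fun t : ℝ => t * dL s - Lam t)) := by
  by_contra hcon
  have h1 : Rate (dL s) = 0 := Real.iSup_of_not_bddAbove hcon
  rw [legB.rate] at h1
  exact (gam_pos' hs).ne' h1

theorem le_gam {s : ℝ} (hs : s ≠ 0) (t : ℝ) : t * dL s - Lam t ≤ gam s := by
  rw [← legB.rate]
  exact le_ciSup (bdd hs) t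

theorem bdd0 : BddAbove (Set.range (fun t : ℝ => t * 0 - Lam t)) := by
  refine ⟨5 / 48, ?_⟩
  rintro _ ⟨t, rfl⟩
  have := legA.low t
  show t * 0 - Lam t ≤ 5 / 48
  linarith

theorem neg_lt_rate {s : ℝ} (hs : s < 0) : gam s < Rate 0 := by
  have h1 : gam s < gam (s - 1) := legB.gneg (Set.mem_Iic.2 (by linarith)) (Set.mem_Iic.2 hs.le)
    (by linarith)
  have h2 : (s - 1) * 0 - Lam (s - 1) ≤ Rate 0 := le_ciSup bdd0 (s - 1)
  have h3 : (s - 1) * dL (s - 1) ≤ 0 :=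
    mul_nonpos_of_nonpos_of_nonneg (by linarith) (dL_pos legA _).le
  have h4 : gam (s - 1) = (s - 1) * dL (s - 1) - Lam (s - 1) := rfl
  linarith

theorem gam_top : Tendsto gam atTop atTop := by
  refine tendsto_atTop_mono' _ ?_ (tendsto_atTop_add_const_right _ (-Lam 1) legA.top)
  filter_upwards [eventually_gt_atTop 0] with s hs
  have := le_gam hs.ne' 1
  linarith

theorem exP {a : ℝ} (ha : 0 < a) : ∃ s, 0 < s ∧ gam s = a := by
  obtain ⟨s1, h1, h2⟩ := ((gam_top.eventually_ge_atTop a).and (eventually_ge_atTop 0)).exists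
  obtain ⟨s, hs, hsa⟩ := intermediate_value_Icc h2 legB.gcont.continuousOn
    (show a ∈ Set.Icc (gam 0) (gam s1) by rw [legB.gzero]; exact ⟨ha.le, h1⟩)
  refine ⟨s, lt_of_le_of_ne hs.1 ?_, hsa⟩
  intro h
  rw [← h, legB.gzero] at hsa
  exact ha.ne hsa

theorem exN {a : ℝ} (ha : 0 < a) {s1 : ℝ} (h2 : s1 < 0) (h1 : a ≤ gam s1) :
    ∃ s, s < 0 ∧ gam s = a := by
  obtain ⟨s, hs, hsa⟩ := intermediate_value_Icc' h2.le legB.gcont.continuousOn
    (show a ∈ Set.Icc (gam 0) (gam s1) by rw [legB.gzero]; exact ⟨ha.le, h1⟩)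
  refine ⟨s, lt_of_le_of_ne hs.2 ?_, hsa⟩
  intro h
  rw [h, legB.gzero] at hsa
  exact ha.ne hsa

theorem le_sp {a sp s : ℝ} (hsp : 0 < sp) (hg : gam sp = a) (h : gam s ≤ a) : s ≤ sp := by
  by_contra hcon
  have h1 := legB.gpos (Set.mem_Ici.2 hsp.le) (Set.mem_Ici.2 (by linarith)) (not_le.1 hcon)
  linarith

theorem sm_le {a sm s : ℝ} (hsm : sm < 0) (hg : gam sm = a) (h : gam s ≤ a) : sm ≤ s := by
  by_contra hcon
  have h1 := legB.gneg (Set.mem_Iic.2 (by linarith)) (Set.mem_Iic.2 hsm.le) (not_le.1 hcon)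
  linarith

/-- the interval -/
theorem J_eq {a : ℝ} (ha : 0 < a) : ∃ sp m : ℝ, 0 < sp ∧ gam sp = a ∧ 0 ≤ m ∧ m < nuc ∧
    JJ a = Set.Icc m (dL sp) ∧ (m = 0 ∨ ∃ sm : ℝ, sm < 0 ∧ gam sm = a ∧ m = dL sm) := by
  obtain ⟨sp, hsp, hga⟩ := exP ha
  have hup : ∀ s, 0 ≤ s → s ≤ sp → gam s ≤ a := fun s h0 h1 => by
    rw [← hga]
    exact legB.gpos.monotoneOn (Set.mem_Ici.2 h0) (Set.mem_Ici.2 hsp.le) h1
  have hnuc : 0 < nuc := by rw [← legA.typ]; exact dL_pos legA 0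
  by_cases hc : ∃ s, s < 0 ∧ a ≤ gam s
  · obtain ⟨s1, h1, h2⟩ := hc
    obtain ⟨sm, hsm, hgm⟩ := exN ha h1 h2
    refine ⟨sp, dL sm, hsp, hga, (dL_pos legA sm).le, ?_, ?_, Or.inr ⟨sm, hsm, hgm, rfl⟩⟩
    · rw [← legA.typ]
      exact legA.mono hsm
    · ext v
      constructor
      · rintro ⟨hv0, hv⟩
        rcases hv0.eq_or_lt with h | h
        · rw [← h] at hv
          have := neg_lt_rate hsm
          linarith
        · obtain ⟨s, rfl⟩ := legB.surj v h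
          rw [legB.rate] at hv
          exact ⟨legA.mono.monotone (sm_le hsm hgm hv), legA.mono.monotone (le_sp hsp hga hv)⟩
      · rintro ⟨hv1, hv2⟩
        have h : 0 < v := (dL_pos legA sm).trans_le hv1
        obtain ⟨s, rfl⟩ := legB.surj v h
        refine ⟨h.le, ?_⟩
        rw [legB.rate]
        have k1 := legA.mono.le_iff_le.1 hv1
        have k2 := legA.mono.le_iff_le.1 hv2
        rcases le_total 0 s with h0 | h0
        · exact hup s h0 k2
        · rw [← hgm]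
          exact legB.gneg.antitoneOn (Set.mem_Iic.2 hsm.le) (Set.mem_Iic.2 h0) k1
  · push Not at hc
    refine ⟨sp, 0, hsp, hga, le_rfl, hnuc, ?_, Or.inl rfl⟩
    ext v
    constructor
    · rintro ⟨hv0, hv⟩
      refine ⟨hv0, ?_⟩
      rcases hv0.eq_or_lt with h | h
      · rw [← h]
        exact (dL_pos legA sp).le
      · obtain ⟨s, rfl⟩ := legB.surj v h
        rw [legB.rate] at hv
        exact legA.mono.monotone (le_sp hsp hga hv)
    · rintro ⟨hv1, hv2⟩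
      refine ⟨hv1, ?_⟩
      rcases hv1.eq_or_lt with h | h
      · rw [← h]
        refine ciSup_le fun t => ?_
        have ht : Tendsto (fun σ => t * dL σ - Lam t) atBot (𝓝 (t * 0 - Lam t)) :=
          (legA.bot.const_mul t).sub_const _
        refine le_of_tendsto ht ?_
        filter_upwards [eventually_lt_atBot 0] with σ hσ
        exact (le_gam hσ.ne t).trans (hc σ hσ).le
      · obtain ⟨s, rfl⟩ := legB.surj v h
        rw [legB.rate]
        have k2 := legA.mono.le_iff_le.1 hv2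
        rcases le_or_gt 0 s with h0 | h0
        · exact hup s h0 k2
        · exact (hc s h0).le

theorem near {a v ε : ℝ} (ha : 0 < a) (hv : v ∈ JJ a) (hε : 0 < ε) :
    ∃ s, gam s < a ∧ |dL s - v| ≤ ε := by
  obtain ⟨hv0, hva⟩ := hv
  rcases hv0.eq_or_lt with h | h
  · rw [← h] at hva
    obtain ⟨s, h1, h2⟩ := ((legA.bot.eventually (gt_mem_nhds hε)).and
      (eventually_lt_atBot 0)).exists
    refine ⟨s, (neg_lt_rate h2).trans_le hva, ?_⟩
    rw [← h, sub_zero, abs_of_pos (dL_pos legA s)]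
    exact h1.le
  · obtain ⟨s, rfl⟩ := legB.surj v h
    rw [legB.rate] at hva
    rcases hva.lt_or_eq with h1 | h1
    · exact ⟨s, h1, by rw [sub_self, abs_zero]; exact hε.le⟩
    · have hs : s ≠ 0 := by
        intro h2
        rw [h2, legB.gzero] at h1
        exact ha.ne h1
      have hcont : ∀ᶠ t in 𝓝 s, |dL t - dL s| ≤ ε := by
        have := Metric.tendsto_nhds.1 (legA.cont.continuousAt (x := s)) ε hε
        filter_upwards [this] with t ht
        rw [Real.dist_eq] at ht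
        exact ht.le
      rcases lt_or_gt_of_ne hs with h2 | h2
      · obtain ⟨t, h3, h4⟩ := ((hcont.and (gt_mem_nhds h2)).filter_mono nhdsWithin_le_nhds |>.and
          (self_mem_nhdsWithin (a := s) (s := Set.Ioi s))).exists
        refine ⟨t, ?_, h3.1⟩
        rw [← h1]
        exact legB.gneg (Set.mem_Iic.2 h2.le) (Set.mem_Iic.2 h3.2.le) h4
      · obtain ⟨t, h3, h4⟩ := ((hcont.and (lt_mem_nhds h2)).filter_mono nhdsWithin_le_nhds |>.and
          (self_mem_nhdsWithin (a := s) (s := Set.Iio s))).exists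
        refine ⟨t, ?_, h3.1⟩
        rw [← h1]
        exact legB.gpos (Set.mem_Ici.2 h3.2.le) (Set.mem_Ici.2 h2.le) h4

theorem net {a η : ℝ} (ha : 0 < a) (hη : 0 < η) : ∃ t : Finset ℝ, (∀ s ∈ t, gam s < a) ∧
    ∀ v ∈ JJ a, ∃ s ∈ t, |dL s - v| ≤ 2 * η := by
  classical
  obtain ⟨sp, m, hsp, hga, hm0, hm, hJ, -⟩ := J_eq ha
  have hch : ∀ j : ℕ, ∃ s, gam s < a ∧ ((∃ v ∈ JJ a, j * η ≤ v ∧ v ≤ (j + 1) * η) →
      ∃ v ∈ JJ a, j * η ≤ v ∧ v ≤ (j + 1) * η ∧ |dL s - v| ≤ η) := by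
    intro j
    by_cases h : ∃ v ∈ JJ a, j * η ≤ v ∧ v ≤ (j + 1) * η
    · obtain ⟨v, hv, h1, h2⟩ := h
      obtain ⟨s, h3, h4⟩ := near ha hv hη
      exact ⟨s, h3, fun _ => ⟨v, hv, h1, h2, h4⟩⟩
    · exact ⟨0, by rw [legB.gzero]; exact ha, fun h' => absurd h' h⟩
  choose σ hσ1 hσ2 using hch
  refine ⟨(Finset.range (⌊dL sp / η⌋₊ + 1)).image σ, ?_, ?_⟩
  · intro s hs
    obtain ⟨j, -, rfl⟩ := Finset.mem_image.1 hs
    exact hσ1 j
  · intro v hv
    have hv' := hv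
    rw [hJ] at hv'
    have hv0 : 0 ≤ v := hm0.trans hv'.1
    obtain ⟨j, hj⟩ : ∃ j, j = ⌊v / η⌋₊ := ⟨_, rfl⟩
    have h1 : (j:ℝ) * η ≤ v := by
      have : (j:ℝ) ≤ v / η := by rw [hj]; exact Nat.floor_le (by positivity)
      rwa [le_div_iff₀ hη] at this
    have h2 : v ≤ (j + 1) * η := by
      have : v / η < (j:ℝ) + 1 := by rw [hj]; exact Nat.lt_floor_add_one _
      rw [div_lt_iff₀ hη] at this
      exact this.le
    obtain ⟨w, hw, h3, h4, h5⟩ := hσ2 j ⟨v, hv, h1, h2⟩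
    refine ⟨σ j, Finset.mem_image.2 ⟨j, Finset.mem_range.2 ?_, rfl⟩, ?_⟩
    · have : j ≤ ⌊dL sp / η⌋₊ := by
        rw [hj]
        apply Nat.floor_mono
        exact div_le_div_of_nonneg_right hv'.2 hη.le
      omega
    · rw [abs_le] at h5 ⊢
      constructor <;> linarith [h5.1, h5.2]

end Pool.Agent.U154.ER
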