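import Pool.Agent.U154.ER.Sp
import Pool.Agent.U154.ER.J

/-!
Erdős-Rényi law for the numbers of layers of the annuli around the origin.
-/

set_option autoImplicit false

namespace Pool.Agent.U154.ER

open H974 Finset Filter Topology MeasureTheory Pool.Agent.W819.EN Real
open Pool.Agent.U154.UT (legA legB)
open Pool.Agent.U154.NI (Lw Lw_mono Lw_changes ae_toE)
open Pool.Agent.N956.PL (crit op)
open Pool.Agent.W933.EN (dL_pos)

/-- the densities of the annuli of ratio `b` -/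
def WW (L : ℕ → ℕ) (a : ℝ) (b : ℕ) : Set ℝ :=
  {x | ∃ r : ℕ, 1 ≤ r ∧ (r:ℝ) ≤ exp ((b:ℝ) ^ a) ∧ x = ((L (b * r) : ℝ) - L r) / log b}

theorem low_ev {a m ε : ℝ} (hm0 : 0 ≤ m) (hε : 0 < ε)
    (hm : m = 0 ∨ ∃ sm : ℝ, sm < 0 ∧ gam sm = a ∧ m = dL sm) :
    ∀ᵐ ω ∂crit, ∀ᶠ b : ℕ in atTop, ∀ r : ℕ, 1 ≤ r → (r:ℝ) ≤ exp ((b:ℝ) ^ a) →
      (m - ε) * log b ≤ (Lw ω (b * r) : ℝ) - Lw ω r := by
  rcases hm with h | ⟨sm, hsm, hga, rfl⟩
  · refine Eventually.of_forall fun ω => ?_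
    filter_upwards [eventually_ge_atTop 1] with b hb r hr _
    have h1 : Lw ω r ≤ Lw ω (b * r) := Lw_mono (Nat.le_mul_of_pos_left _ (by omega)) ω
    have h1' : (Lw ω r : ℝ) ≤ Lw ω (b * r) := by exact_mod_cast h1
    have h2 : 0 ≤ log (b:ℝ) := log_natCast_nonneg b
    rw [h]
    nlinarith
  · have h0 := dL_pos legA sm
    have h1 := min_low (s := sm) (x := max 0 (dL sm - ε)) hsm (le_max_left _ _)
      (max_lt h0 (by linarith))
    rw [hga] at h1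
    filter_upwards [h1] with ω hω
    filter_upwards [hω] with b hb r hr hrI
    have h2 := hb r hr hrI
    have h3 : (dL sm - ε) * log b ≤ max 0 (dL sm - ε) * log b :=
      mul_le_mul_of_nonneg_right (le_max_right _ _) (log_natCast_nonneg b)
    linarith

theorem haus {a : ℝ} (ha : 0 < a) {ε : ℝ} (hε : 0 < ε) : ∀ᵐ ω ∂crit, ∀ᶠ b : ℕ in atTop,
    Metric.hausdorffDist (WW (Lw ω) a b) (JJ a) ≤ ε := by
  obtain ⟨sp, m, hsp, hga, hm0, hmn, hJ, hm⟩ := J_eq ha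
  have hM0 := dL_pos legA sp
  have hnM : nuc < dL sp := by
    rw [← legA.typ]
    exact legA.mono hsp
  have hup := max_up (s := sp) (x := dL sp + ε) hsp (by linarith) (by linarith)
  rw [hga] at hup
  have hlo := low_ev hm0 hε hm
  obtain ⟨t, ht1, ht2⟩ := net (a := a) (η := ε / 4) ha (by positivity)
  have hsp' : ∀ᵐ ω ∂crit, ∀ s ∈ t, ∀ᶠ b : ℕ in atTop, ∃ r : ℕ, 1 ≤ r ∧
      (r:ℝ) ≤ exp ((b:ℝ) ^ a) ∧
      |(Lw ω (b * r) : ℝ) - Lw ω r - dL s * log b| ≤ 4 * (ε / 8) * log b := by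
    have := (ae_ball_iff (μ := crit) t.countable_toSet
      (p := fun ω s _ => ∀ᶠ b : ℕ in atTop, ∃ r : ℕ, 1 ≤ r ∧
      (r:ℝ) ≤ exp ((b:ℝ) ^ a) ∧
      |(Lw ω (b * r) : ℝ) - Lw ω r - dL s * log b| ≤ 4 * (ε / 8) * log b)).2
      (fun s hs => spec (ht1 s hs) (by positivity))
    exact this
  filter_upwards [hup, hlo, hsp'] with ω h1 h2 h3
  have h3' : ∀ᶠ b : ℕ in atTop, ∀ s ∈ t, ∃ r : ℕ, 1 ≤ r ∧
      (r:ℝ) ≤ exp ((b:ℝ) ^ a) ∧
      |(Lw ω (b * r) : ℝ) - Lw ω r - dL s * log b| ≤ 4 * (ε / 8) * log b :=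
    (Filter.eventually_all_finset t).2 h3
  filter_upwards [h1, h2, h3', eventually_ge_atTop 2] with b k1 k2 k3 hb
  have hl : 0 < log (b:ℝ) := log_pos (by exact_mod_cast hb)
  apply Metric.hausdorffDist_le_of_mem_dist hε.le
  · rintro x ⟨r, hr, hrI, rfl⟩
    have q1 := k1 r hr hrI
    have q2 := k2 r hr hrI
    rw [hJ]
    rw [← div_le_iff₀ hl] at q1
    rw [← le_div_iff₀ hl] at q2
    obtain ⟨x, hx⟩ : ∃ x : ℝ, x = ((Lw ω (b * r) : ℝ) - Lw ω r) / log b := ⟨_, rfl⟩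
    rw [← hx] at q1 q2 ⊢
    rcases le_total x (dL sp) with c1 | c1
    · rcases le_total m x with c2 | c2
      · exact ⟨x, ⟨c2, c1⟩, by rw [dist_self]; exact hε.le⟩
      · refine ⟨m, ⟨le_rfl, by linarith⟩, ?_⟩
        rw [Real.dist_eq, abs_le]
        constructor <;> linarith
    · refine ⟨dL sp, ⟨by linarith, le_rfl⟩, ?_⟩
      rw [Real.dist_eq, abs_le]
      constructor <;> linarith
  · intro v hv
    obtain ⟨s, hs, hsv⟩ := ht2 v hv
    obtain ⟨r, hr, hrI, hr2⟩ := k3 s hs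
    refine ⟨_, ⟨r, hr, hrI, rfl⟩, ?_⟩
    obtain ⟨y, hy⟩ : ∃ y : ℝ, y = ((Lw ω (b * r) : ℝ) - Lw ω r) / log b := ⟨_, rfl⟩
    have e : (Lw ω (b * r) : ℝ) - Lw ω r = y * log b := by rw [hy]; field_simp
    rw [e] at hr2
    rw [← hy]
    obtain ⟨a1, a2⟩ := abs_le.1 hr2
    obtain ⟨a3, a4⟩ := abs_le.1 hsv
    have b1 : -(ε / 2) ≤ y - dL s := by
      have : (-(ε / 2)) * log b ≤ (y - dL s) * log b := by linarith
      exact le_of_mul_le_mul_right this hl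
    have b2 : y - dL s ≤ ε / 2 := by
      have : (y - dL s) * log b ≤ (ε / 2) * log b := by linarith
      exact le_of_mul_le_mul_right this hl
    rw [Real.dist_eq, abs_le]
    constructor <;> linarith

/-- the Erdős-Rényi law -/
theorem er {a : ℝ} (ha : 0 < a) : ∀ᵐ ω ∂crit,
    Tendsto (fun b : ℕ => Metric.hausdorffDist (WW (Lw ω) a b) (JJ a)) atTop (𝓝 0) := by
  have h : ∀ᵐ ω ∂crit, ∀ n : ℕ, ∀ᶠ b : ℕ in atTop,
      Metric.hausdorffDist (WW (Lw ω) a b) (JJ a) ≤ 1 / ((n:ℝ) + 1) :=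
    ae_all_iff.2 fun n => haus ha (by positivity)
  filter_upwards [h] with ω hω
  rw [Metric.tendsto_nhds]
  intro ε hε
  obtain ⟨n, hn⟩ := exists_nat_one_div_lt hε
  filter_upwards [hω n] with b hb
  rw [Real.dist_eq, sub_zero, abs_of_nonneg Metric.hausdorffDist_nonneg]
  exact hb.trans_lt hn

/-- in the lattice of the library -/
theorem er_bond {a : ℝ} (ha : 0 < a) : ∀ᵐ ω ∂(bondLaw hlf),
    Tendsto (fun b : ℕ => Metric.hausdorffDist
      (WW (fun n => Pool.Agent.H863R2.NL.changes n ω) a b) (JJ a)) atTop (𝓝 0) := by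
  have h := ae_toE (er ha)
  filter_upwards [h] with ω hω
  have e : (fun n => Pool.Agent.H863R2.NL.changes n ω) = Lw (fun e => ω (toE e)) := by
    funext n
    exact (Lw_changes ω n).symm
  rw [e]
  exact hω

end Pool.Agent.U154.ER
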