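import Pool.Agent.U154.ER.Dev

/-!
Exponential moments of the increments of the number of layers.
-/

set_option autoImplicit false

namespace Pool.Agent.U154.ER

open H974 Finset Filter Topology MeasureTheory Pool.Agent.W819.EN Real
open Pool.Agent.U154.UT (ok2 T B legA legB T_mono T_le ET_T T_congr)
open Pool.Agent.U154.TP

theorem incr_up {u : ℝ} (hu1 : 1 < u) : ∃ K : ℝ, 0 < K ∧ ∀ r R : ℕ, 1 ≤ r → 4 * r ≤ R →
    ∀ S : Finset Edg, B R ⊆ S →
    Ex P2 S (fun F => u ^ (T R F - T r F)) ≤ K * ((R:ℝ) / r) ^ Psi u := by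
  have hu : 0 < u := by linarith
  have hΨ := Psi_nonneg hu1
  obtain ⟨c0, C0, hc0, hC0, h⟩ := mom_all hu
  obtain ⟨K2, hK2, hout⟩ := od hu1
  obtain ⟨ρ, hρ, hUB⟩ := UB hu1.le 4 18
  obtain ⟨C, hC, htail⟩ := lnk_tail hρ
  obtain ⟨κ, hκ⟩ := hUB C 1 hC one_pos
  refine ⟨C0 + (u ^ (4 + 18 * κ) + 1) * K2, by positivity, ?_⟩
  intro r R hr hR S hS
  have hrp : (0:ℝ) < r := by exact_mod_cast hr
  have hRp : (0:ℝ) < R := by exact_mod_cast (by omega : 0 < R)
  have hpw : 0 ≤ ((R:ℝ) / r) ^ Psi u := by positivity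
  rcases Nat.lt_or_ge r 2 with h2 | h2
  · have hr1 : r = 1 := by omega
    have k1 : Ex P2 S (fun F => u ^ (T R F - T r F)) ≤ Ex P2 S (fun F => u ^ T R F) :=
      Ex_mono ok2 fun F _ => pow_le_pow_right₀ hu1.le (Nat.sub_le _ _)
    rw [T_loc hS (fun m => u ^ m)] at k1
    have k2 := (h R (by omega)).2
    have e : (R:ℝ) / r = R := by rw [hr1, Nat.cast_one, div_one]
    rw [e] at hpw ⊢
    have k3 : 0 ≤ (u ^ (4 + 18 * κ) + 1) * K2 * (R:ℝ) ^ Psi u := by positivity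
    have k4 : (C0 + (u ^ (4 + 18 * κ) + 1) * K2) * (R:ℝ) ^ Psi u =
      C0 * (R:ℝ) ^ Psi u + (u ^ (4 + 18 * κ) + 1) * K2 * (R:ℝ) ^ Psi u := by ring
    rw [k4]
    linarith
  · obtain ⟨b, hb⟩ : ∃ b, b = r / 2 := ⟨_, rfl⟩
    have hb1 : 1 ≤ b := by omega
    have hb2 : 2 * b ≤ r := by omega
    have hb3 : r ≤ 4 * b := by omega
    have hbp : (0:ℝ) < b := by exact_mod_cast hb1
    have dd := (hout R (4 * b) (by omega) (by omega)).dn (S := S) (sdiff_subset.trans hS)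
    obtain ⟨N, hN⟩ := lnk_top (v := (0, 0)) hb1
    have k2 := hκ S _ _ (fun F => u ^ (T R F - T r F)) _ (fun k F => Lnk (0, 0) b k F) N
      (by positivity) (fun F => by positivity) hN (fun k F hF => by
        have h1 : T R F ≤ T (2 * b) F + U (4 * b) R F + (4 + 18 * k) :=
          in_bound hb1 (by omega) hF
        have h3 : T (2 * b) F ≤ T r F := T_mono hb2 F
        calc u ^ (T R F - T r F) ≤ u ^ ((4 + 18 * k) + U (4 * b) R F) :=
              pow_le_pow_right₀ hu1.le (by omega)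
          _ = _ := by rw [pow_add]) dd
      (fun k F F' hFF => by
        apply lnk_congr hb1
        intro e he he1
        have h2 := Finset.ext_iff.1 hFF e
        simp only [Finset.mem_sdiff] at h2
        have he2 : e ∈ B (2 * ((4 * b : ℕ) : ℤ)) := B_mono (by push_cast; omega) he
        have h3 : ¬ (e ∈ S ∧ e ∉ B (2 * ((4 * b : ℕ) : ℤ))) := fun h => h.2 he2
        constructor
        · intro h4
          exact (h2.1 ⟨h4, h3⟩).1
        · intro h4
          exact (h2.2 ⟨h4, h3⟩).1)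
      (fun k => lnk_ex hb1 htail (sdiff_subset.trans ((B_mono (by omega)).trans hS)))
    have k3 := dd.one
    have k4 : K2 * ((R:ℝ) / ((4 * b : ℕ) : ℝ)) ^ Psi u ≤ K2 * ((R:ℝ) / r) ^ Psi u := by
      apply mul_le_mul_of_nonneg_left _ hK2.le
      apply rpow_le_rpow (by positivity) _ hΨ
      apply div_le_div_of_nonneg_left hRp.le hrp
      exact_mod_cast hb3
    have hD0 : 0 ≤ u ^ (4 + 18 * κ) := by positivity
    have k5 := mul_le_mul_of_nonneg_left (k3.trans k4) hD0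
    have k6 : 0 ≤ C0 * ((R:ℝ) / r) ^ Psi u := by positivity
    have k7 : (C0 + (u ^ (4 + 18 * κ) + 1) * K2) * ((R:ℝ) / r) ^ Psi u =
      C0 * ((R:ℝ) / r) ^ Psi u + u ^ (4 + 18 * κ) * (K2 * ((R:ℝ) / r) ^ Psi u) +
        K2 * ((R:ℝ) / r) ^ Psi u := by ring
    rw [k7]
    linarith

/-- upper tails of the increments -/
theorem mk_up {s : ℝ} (hs : 0 < s) : ∃ K : ℝ, 0 < K ∧ ∀ r R : ℕ, 1 ≤ r → 4 * r ≤ R →
    ∀ S : Finset Edg, B R ⊆ S → ∀ y : ℝ,
    Pr P2 S (fun F => y ≤ (T R F : ℝ) - T r F) ≤ K * ((R:ℝ) / r) ^ Lam s * exp (-(s * y)) := by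
  obtain ⟨K, hK, h⟩ := incr_up (one_lt_exp_iff.2 hs)
  refine ⟨K, hK, fun r R hr hR S hS y => ?_⟩
  have h1 := h r R hr hR S hS
  have h2 : Pr P2 S (fun F => y ≤ (T R F : ℝ) - T r F) ≤
      Ex P2 S (fun F => exp s ^ (T R F - T r F) * exp (-(s * y))) := by
    apply Ex_mono ok2
    intro F _
    by_cases hy : y ≤ (T R F : ℝ) - T r F
    · rw [ind_of hy, ← exp_nat_mul, ← exp_add, Nat.cast_sub (T_mono (by omega) F)]
      apply one_le_exp
      nlinarith
    · rw [ind_not_of hy]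
      positivity
  rw [Ex_mul_right] at h2
  refine h2.trans ?_
  exact mul_le_mul_of_nonneg_right h1 (exp_pos _).le

/-- lower tails of the increments -/
theorem mk_low {s : ℝ} (hs : s < 0) : ∃ K : ℝ, 0 < K ∧ ∀ r R : ℕ, 1 ≤ r → r ≤ R →
    ∀ S : Finset Edg, B R ⊆ S → ∀ y : ℝ,
    Pr P2 S (fun F => (U r R F : ℝ) ≤ y) ≤ K * ((R:ℝ) / r) ^ Lam s * exp (-(s * y)) := by
  obtain ⟨c, K, hc, hK, h⟩ := am_exp s
  refine ⟨K, hK, fun r R hr hR S hS y => ?_⟩
  have h1 := (h r R hr hR S (sdiff_subset.trans hS)).2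
  have h2 : Pr P2 S (fun F => (U r R F : ℝ) ≤ y) ≤
      Ex P2 S (fun F => exp (s * U r R F) * exp (-(s * y))) := by
    apply Ex_mono ok2
    intro F _
    by_cases hy : (U r R F : ℝ) ≤ y
    · rw [ind_of hy, ← exp_add]
      apply one_le_exp
      nlinarith
    · rw [ind_not_of hy]
      positivity
  rw [Ex_mul_right] at h2
  refine h2.trans ?_
  exact mul_le_mul_of_nonneg_right h1 (exp_pos _).le

end Pool.Agent.U154.ER
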