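import Pool.Agent.U154.ER.Mx

/-!
The smallest increment.
-/

set_option autoImplicit false

namespace Pool.Agent.U154.ER

open H974 Finset Filter Topology MeasureTheory Pool.Agent.W819.EN Real
open Pool.Agent.U154.UT (ok2 T B legA legB T_mono)
open Pool.Agent.U154.TP
open Pool.Agent.U154.NI (Lw Lw_mono)
open Pool.Agent.N956.PL (crit op)

theorem min_low {s x : ℝ} (hs : s < 0) (hx0 : 0 ≤ x) (hx : x < dL s) :
    ∀ᵐ ω ∂crit, ∀ᶠ b : ℕ in atTop, ∀ r : ℕ, 1 ≤ r → (r:ℝ) ≤ exp ((b:ℝ) ^ gam s) →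
      x * log b ≤ (Lw ω (b * r) : ℝ) - Lw ω r := by
  have hI := gam_neg hs
  obtain ⟨K, hK, hlow⟩ := mk_low hs
  have h := union_as (I := gam s) (θ := s * x - Lam s)
    (C := K * 4 ^ |Lam s| * 2 ^ (-(s * x))) hI
    (by unfold gam; nlinarith) (by positivity)
    (fun k i F => (U (2 ^ (i + 1) + 1) (2 ^ (k + i)) F : ℝ) ≤ x * (((k:ℝ) + 1) * log 2))
    (fun k => B ((2 ^ (Jm (gam s) k + k + 2) : ℕ) : ℤ)) 2 (by
      intro k hk i hi
      have hle : 2 ^ (i + 1) + 1 ≤ 2 ^ (k + i) := by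
        have a1 : 2 ^ (i + 2) ≤ 2 ^ (k + i) := Nat.pow_le_pow_right (by norm_num) (by omega)
        have a2 : 2 ^ (i + 2) = 2 * 2 ^ (i + 1) := by rw [pow_succ]; ring
        have a3 : 1 ≤ 2 ^ (i + 1) := Nat.one_le_two_pow
        omega
      have h1 := hlow (2 ^ (i + 1) + 1) (2 ^ (k + i)) (Nat.le_add_left 1 _) hle
        (B ((2 ^ (Jm (gam s) k + k + 2) : ℕ) : ℤ)) (B_mono (by
          exact_mod_cast Nat.pow_le_pow_right (by norm_num) (by omega)))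
        (x * (((k:ℝ) + 1) * log 2))
      refine h1.trans ?_
      have e1 : -(s * (x * (((k:ℝ) + 1) * log 2))) = -((s * x) * (((k + 1 : ℕ) : ℝ) * log 2)) := by
        push_cast
        ring
      rw [e1, e2]
      have e3 : ((2:ℝ) ^ (k + 1)) ^ (-(s * x)) = 2 ^ (-(s * x)) * ((2:ℝ) ^ k) ^ (-(s * x)) := by
        rw [pow_succ, mul_rpow (by positivity) (by norm_num), mul_comm]
      have h2 : (((2 ^ (k + i) : ℕ) : ℝ) / ((2 ^ (i + 1) + 1 : ℕ) : ℝ)) ^ Lam s ≤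
          4 ^ |Lam s| * ((2:ℝ) ^ k) ^ Lam s := by
        have p1 : (1:ℝ) ≤ 2 ^ i := one_le_pow₀ (by norm_num)
        have p2 : (0:ℝ) < 2 ^ k := by positivity
        apply rpow_cmp (by positivity) (by positivity) (by norm_num)
        · push_cast
          rw [div_le_iff₀ (by positivity), pow_add, pow_add]
          nlinarith [mul_pos p2 (show (0:ℝ) < 2 ^ i by positivity)]
        · push_cast
          rw [mul_div_assoc', le_div_iff₀ (by positivity), pow_add, pow_add]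
          nlinarith
      rw [e3]
      calc K * (((2 ^ (k + i) : ℕ) : ℝ) / ((2 ^ (i + 1) + 1 : ℕ) : ℝ)) ^ Lam s *
            (2 ^ (-(s * x)) * ((2:ℝ) ^ k) ^ (-(s * x))) ≤
          K * (4 ^ |Lam s| * ((2:ℝ) ^ k) ^ Lam s) *
            (2 ^ (-(s * x)) * ((2:ℝ) ^ k) ^ (-(s * x))) := by
            apply mul_le_mul_of_nonneg_right _ (by positivity)
            exact mul_le_mul_of_nonneg_left h2 hK.le
        _ = _ := by
            rw [show -(s * x - Lam s) = Lam s + -(s * x) by ring, rpow_add (by positivity)]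
            ring)
  filter_upwards [h] with ω hω
  filter_upwards [tlog.eventually hω, tlog.eventually_ge_atTop 2, eventually_ge_atTop 1]
    with b hb hk2 hb1 r hr hrI
  obtain ⟨k, hk⟩ : ∃ k, k = Nat.log 2 b := ⟨_, rfl⟩
  rw [← hk] at hb hk2
  obtain ⟨l1, l2, l3, l4⟩ := lg hb1 hk
  obtain ⟨i, hi⟩ : ∃ i, i = Nat.log 2 r := ⟨_, rfl⟩
  obtain ⟨j1, j2, j3, j4⟩ := lg hr hi
  have hiJ := le_Jm hI l2 hrI j1
  have h1 := hb i hiJ
  obtain ⟨N, hN⟩ : ∃ N, N = 2 ^ (Jm (gam s) k + k + 2) := ⟨_, rfl⟩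
  rw [← hN, not_le] at h1
  have hle : 2 ^ (i + 1) + 1 ≤ 2 ^ (k + i) := by
    have a1 : 2 ^ (i + 2) ≤ 2 ^ (k + i) := Nat.pow_le_pow_right (by norm_num) (by omega)
    have a2 : 2 ^ (i + 2) = 2 * 2 ^ (i + 1) := by rw [pow_succ]; ring
    have a3 : 1 ≤ 2 ^ (i + 1) := Nat.one_le_two_pow
    omega
  have hN1 : 2 ^ (k + i) ≤ N := by
    rw [hN]
    exact Nat.pow_le_pow_right (by norm_num) (by omega)
  have h6 := T_super (by omega : 2 ^ (i + 1) < 2 ^ (i + 1) + 1) hle (op (B (N:ℤ)) ω)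
  rw [T_op (by omega), T_op hN1] at h6
  have h2 : Lw ω (2 ^ (k + i)) ≤ Lw ω (b * r) := by
    apply Lw_mono
    rw [pow_add]
    exact Nat.mul_le_mul l1 j1
  have h3 : Lw ω r ≤ Lw ω (2 ^ (i + 1)) := Lw_mono j2.le ω
  have h6' : (Lw ω (2 ^ (i + 1)) : ℝ) + U (2 ^ (i + 1) + 1) (2 ^ (k + i)) (op (B (N:ℤ)) ω) ≤
      Lw ω (2 ^ (k + i)) := by exact_mod_cast h6
  have h2' : (Lw ω (2 ^ (k + i)) : ℝ) ≤ Lw ω (b * r) := by exact_mod_cast h2
  have h3' : (Lw ω r : ℝ) ≤ Lw ω (2 ^ (i + 1)) := by exact_mod_cast h3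
  have h4 := mul_le_mul_of_nonneg_left l4 hx0
  linarith

/-- cheap links -/
theorem cheap {θ : ℝ} (M : ℕ) (hM : 1 ≤ M) : ∃ k0 : ℕ, ∀ k, k0 ≤ k → ∀ c N : ℕ, 1 ≤ c →
    8 * c ≤ N → Pr P2 (B (N:ℤ)) (fun F => ¬ Lnk (0, 0) c (k / M) F) ≤
      1 / 4 * ((2:ℝ) ^ k) ^ (-θ) := by
  obtain ⟨a, ha⟩ : ∃ a : ℝ, a = min (2 ^ (-(θ + 1))) 1 := ⟨_, rfl⟩
  have ha0 : 0 < a := by rw [ha]; positivity
  have ha1 : a ≤ 1 := by rw [ha]; exact min_le_right _ _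
  obtain ⟨C, hC, htail⟩ := lnk_tail (ρ := a ^ M) (by positivity)
  have ht : Tendsto (fun k : ℕ => C / a ^ M * (1 / 2 : ℝ) ^ k) atTop (𝓝 (C / a ^ M * 0)) :=
    (tendsto_pow_atTop_nhds_zero_of_lt_one (by norm_num) (by norm_num)).const_mul _
  rw [mul_zero] at ht
  obtain ⟨k0, hk0⟩ := eventually_atTop.1 (ht.eventually (gt_mem_nhds (show (0:ℝ) < 1 / 4 by
    norm_num)))
  refine ⟨k0, fun k hk c N hc hN => ?_⟩
  have h1 : Pr P2 (B (N:ℤ)) (fun F => ¬ Lnk (0, 0) c (k / M) F) ≤ C * (a ^ M) ^ (k / M) :=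
    lnk_ex hc htail (sdiff_subset.trans (B_mono (by exact_mod_cast hN)))
  refine h1.trans ?_
  have h2 : (a ^ M) ^ (k / M) * a ^ M ≤ a ^ k := by
    rw [← pow_mul, ← pow_add]
    apply pow_le_pow_of_le_one ha0.le ha1
    have := Nat.lt_div_mul_add (a := k) (b := M) (by omega)
    nlinarith
  have h3 : a ^ k ≤ ((2:ℝ) ^ k) ^ (-θ) * (1 / 2) ^ k := by
    have h4 : a ^ k ≤ (2 ^ (-(θ + 1))) ^ k :=
      pow_le_pow_left₀ ha0.le (by rw [ha]; exact min_le_left _ _) k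
    refine h4.trans (le_of_eq ?_)
    rw [rp2, ← mul_pow]
    congr 1
    rw [show -(θ + 1) = -θ + -1 by ring, rpow_add (by norm_num), rpow_neg_one]
    norm_num
  have h5 : (a ^ M) ^ (k / M) ≤ (((2:ℝ) ^ k) ^ (-θ) * (1 / 2) ^ k) / a ^ M := by
    rw [le_div_iff₀ (by positivity)]
    exact h2.trans h3
  have h6 := hk0 k hk
  calc C * (a ^ M) ^ (k / M) ≤ C * ((((2:ℝ) ^ k) ^ (-θ) * (1 / 2) ^ k) / a ^ M) :=
        mul_le_mul_of_nonneg_left h5 hC.le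
    _ = (C / a ^ M * (1 / 2) ^ k) * ((2:ℝ) ^ k) ^ (-θ) := by ring
    _ ≤ _ := mul_le_mul_of_nonneg_right h6.le (by positivity)

end Pool.Agent.U154.ER
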