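import Pool.Agent.U154.ER.Inc
import Pool.Agent.U154.ER.As

/-!
The largest increment.
-/

set_option autoImplicit false

namespace Pool.Agent.U154.ER

open H974 Finset Filter Topology MeasureTheory Pool.Agent.W819.EN Real
open Pool.Agent.U154.UT (ok2 T B legA legB T_mono)
open Pool.Agent.U154.TP
open Pool.Agent.U154.NI (Lw Lw_mono)
open Pool.Agent.N956.PL (crit op)

theorem gam_pos {s : ℝ} (hs : 0 < s) : 0 < gam s := by
  have h := legB.gpos (Set.mem_Ici.2 le_rfl) (Set.mem_Ici.2 hs.le) hs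
  rwa [legB.gzero] at h

theorem gam_neg {s : ℝ} (hs : s < 0) : 0 < gam s := by
  have h := legB.gneg (Set.mem_Iic.2 hs.le) (Set.mem_Iic.2 le_rfl) hs
  rwa [legB.gzero] at h

theorem e2 (k : ℕ) (a : ℝ) : exp (-(a * (k * log 2))) = ((2:ℝ) ^ k) ^ (-a) := by
  rw [rpow_def_of_pos (by positivity), log_pow]
  congr 1
  ring

theorem max_up {s x : ℝ} (hs : 0 < s) (hx0 : 0 ≤ x) (hx : dL s < x) :
    ∀ᵐ ω ∂crit, ∀ᶠ b : ℕ in atTop, ∀ r : ℕ, 1 ≤ r → (r:ℝ) ≤ exp ((b:ℝ) ^ gam s) →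
      (Lw ω (b * r) : ℝ) - Lw ω r ≤ x * log b := by
  have hI := gam_pos hs
  obtain ⟨K, hK, hup⟩ := mk_up hs
  have h := union_as (I := gam s) (θ := s * x - Lam s) (C := K * 4 ^ Lam s) hI
    (by unfold gam; nlinarith) (by positivity)
    (fun k i F => x * (k * log 2) ≤ (T (2 ^ (i + k + 2)) F : ℝ) - T (2 ^ i) F)
    (fun k => B ((2 ^ (Jm (gam s) k + k + 2) : ℕ) : ℤ)) 0 (by
      intro k _ i hi
      have h1 := hup (2 ^ i) (2 ^ (i + k + 2)) Nat.one_le_two_pow (by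
        rw [show 4 = 2 ^ 2 by norm_num, ← pow_add]
        exact Nat.pow_le_pow_right (by norm_num) (by omega))
        (B ((2 ^ (Jm (gam s) k + k + 2) : ℕ) : ℤ)) (B_mono (by
          exact_mod_cast Nat.pow_le_pow_right (by norm_num) (by omega))) (x * (k * log 2))
      refine h1.trans (le_of_eq ?_)
      have h2 : ((2 ^ (i + k + 2) : ℕ) : ℝ) / ((2 ^ i : ℕ) : ℝ) = 4 * 2 ^ k := by
        push_cast
        rw [pow_add, pow_add]
        field_simp
        norm_num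
      rw [h2, mul_rpow (by norm_num) (by positivity), ← mul_assoc s x, e2,
        show -(s * x - Lam s) = Lam s + -(s * x) by ring, rpow_add (by positivity)]
      ring)
  filter_upwards [h] with ω hω
  filter_upwards [tlog.eventually hω, eventually_ge_atTop 1] with b hb hb1 r hr hrI
  obtain ⟨k, hk⟩ : ∃ k, k = Nat.log 2 b := ⟨_, rfl⟩
  rw [← hk] at hb
  obtain ⟨l1, l2, l3, l4⟩ := lg hb1 hk
  obtain ⟨i, hi⟩ : ∃ i, i = Nat.log 2 r := ⟨_, rfl⟩
  obtain ⟨j1, j2, j3, j4⟩ := lg hr hi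
  have hiJ := le_Jm hI l2 hrI j1
  have h1 := hb i hiJ
  rw [T_op (by exact Nat.pow_le_pow_right (by norm_num) (by omega)),
    T_op (by exact Nat.pow_le_pow_right (by norm_num) (by omega)), not_le] at h1
  have h2 : Lw ω (b * r) ≤ Lw ω (2 ^ (i + k + 2)) := by
    apply Lw_mono
    have : b * r ≤ 2 ^ (k + 1) * 2 ^ (i + 1) := Nat.mul_le_mul l2.le j2.le
    rw [← pow_add] at this
    rwa [show i + k + 2 = k + 1 + (i + 1) by omega]
  have h3 : Lw ω (2 ^ i) ≤ Lw ω r := Lw_mono j1 ω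
  have h2' : (Lw ω (b * r) : ℝ) ≤ Lw ω (2 ^ (i + k + 2)) := by exact_mod_cast h2
  have h3' : (Lw ω (2 ^ i) : ℝ) ≤ Lw ω r := by exact_mod_cast h3
  have h4 := mul_le_mul_of_nonneg_left l3 hx0
  linarith

end Pool.Agent.U154.ER
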