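import Pool.Agent.U154.ER.Mn

/-!
Every density of rate smaller than `a` is realised.
-/

set_option autoImplicit false

namespace Pool.Agent.U154.ER

open H974 Finset Filter Topology MeasureTheory Pool.Agent.W819.EN Real
open Pool.Agent.U154.UT (ok2 T B legA legB T_mono)
open Pool.Agent.U154.TP
open Pool.Agent.U154.NI (Lw Lw_mono)
open Pool.Agent.N956.PL (crit op)

theorem gam_nonneg (s : ℝ) : 0 ≤ gam s := by
  rcases lt_trichotomy s 0 with h | h | h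
  · exact (gam_neg h).le
  · rw [h, legB.gzero]
  · exact (gam_pos h).le

/-- the outer link -/
theorem out_link {k c κ : ℕ} (hc : 1 ≤ c) (hk : 1 ≤ k) {F : Finset Edg}
    (h : Lnk (0, 0) (2 ^ (k - 1) * c) κ F) :
    T (2 ^ (k + 2) * c) F ≤ T (2 ^ (k + 1) * c) F + (4 + 20 * κ) := by
  obtain ⟨j, rfl⟩ : ∃ j, k = j + 1 := ⟨k - 1, by omega⟩
  rw [Nat.add_sub_cancel] at h
  obtain ⟨b, hb⟩ : ∃ b, b = 2 ^ j * c := ⟨_, rfl⟩
  rw [← hb] at h
  have hb1 : 1 ≤ b := by rw [hb]; exact Nat.mul_pos (by positivity) hc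
  have e1 : 2 ^ (j + 1 + 2) * c = 8 * b := by rw [hb, pow_succ, pow_succ, pow_succ]; ring
  have e2 : 2 ^ (j + 1 + 1) * c = 4 * b := by rw [hb, pow_succ, pow_succ]; ring
  rw [e1, e2]
  have h1 : T (8 * b) F ≤ T (2 * b) F + U (4 * b) (8 * b) F + (4 + 18 * κ) :=
    in_bound hb1 le_rfl h
  have h2 := Pool.Agent.W38.EN.t_RAD F (0, 0) b κ hb1 h.2.2
  have h3 : U (4 * b) (8 * b) F ≤ NA F (0, 0) b (8 * b) :=
    geo.mono F (0, 0) (4 * b) b (8 * b) (8 * b) (by omega) le_rfl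
  have h4 : T (2 * b) F ≤ T (4 * b) F := T_mono (by omega) F
  omega

theorem spec {s a δ : ℝ} (hg : gam s < a) (hδ0 : 0 < δ) :
    ∀ᵐ ω ∂crit, ∀ᶠ b : ℕ in atTop, ∃ r : ℕ, 1 ≤ r ∧ (r:ℝ) ≤ exp ((b:ℝ) ^ a) ∧
      |(Lw ω (b * r) : ℝ) - Lw ω r - dL s * log b| ≤ 4 * δ * log b := by
  have hl : 0 < log 2 := log_pos (by norm_num)
  have hI' := gam_nonneg s
  have ha : 0 < a := by linarith
  have hdL : 0 < dL s := Pool.Agent.W933.EN.dL_pos legA s
  obtain ⟨ε, hε⟩ : ∃ ε : ℝ, ε = (a - gam s) / 2 := ⟨_, rfl⟩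
  have hε0 : 0 < ε := by rw [hε]; linarith
  obtain ⟨L0, hdev⟩ := dev s δ ε hδ0 hε0
  obtain ⟨M, hM1, hM⟩ : ∃ M : ℕ, 1 ≤ M ∧ 20 ≤ δ * log 2 * M := by
    obtain ⟨M, hM⟩ := exists_nat_ge (20 / (δ * log 2))
    refine ⟨M + 1, by omega, ?_⟩
    rw [div_le_iff₀ (by positivity)] at hM
    push_cast
    nlinarith [mul_pos hδ0 hl]
  obtain ⟨k1, hk1⟩ := cheap (θ := gam s + ε) M hM1
  obtain ⟨k0, hk0⟩ : ∃ k0 : ℕ, ∀ k, k0 ≤ k → 2 ≤ k ∧ k1 ≤ k ∧ L0 ≤ (2:ℝ) ^ k ∧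
      4 ≤ δ * log 2 * (k:ℝ) ∧ dL s * log 2 ≤ δ * log 2 * (k:ℝ) := by
    have t1 : Tendsto (fun k : ℕ => (2:ℝ) ^ k) atTop atTop :=
      tendsto_pow_atTop_atTop_of_one_lt (by norm_num)
    have t2 : Tendsto (fun k : ℕ => δ * log 2 * (k:ℝ)) atTop atTop :=
      tendsto_natCast_atTop_atTop.const_mul_atTop (by positivity)
    exact eventually_atTop.1 ((eventually_ge_atTop 2).and ((eventually_ge_atTop k1).and
      ((t1.eventually_ge_atTop L0).and ((t2.eventually_ge_atTop 4).and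
        (t2.eventually_ge_atTop (dL s * log 2))))))
  have hrad : ∀ k i, 1 ≤ k → 8 * cc k i ≤ 2 ^ (k + 2) * cc k i := by
    intro k i hk
    apply Nat.mul_le_mul_right
    rw [show 8 = 2 ^ 3 by norm_num]
    exact Nat.pow_le_pow_right (by norm_num) (by omega)
  have hcj : ∀ k i, 1 ≤ k → 8 * (2 ^ (k - 1) * cc k i) = 2 ^ (k + 2) * cc k i := by
    intro k i hk
    obtain ⟨j, rfl⟩ : ∃ j, k = j + 1 := ⟨k - 1, by omega⟩
    rw [Nat.add_sub_cancel, pow_succ 2 (j + 1 + 1), pow_succ 2 (j + 1), pow_succ 2 j]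
    ring
  have hcp' : ∀ k i, cc k i ≤ 2 ^ (k - 1) * cc k i := fun k i =>
    Nat.le_mul_of_pos_left _ (by positivity)
  have h := exist_as (I := a) (θ := gam s + ε) (c := 1 / 2) (by linarith)
    (by rw [hε]; linarith) (by norm_num)
    (fun k i F => |(U (4 * cc k i) (2 ^ (k + 2) * cc k i) F : ℝ) - dL s * (k * log 2)| ≤
      δ * (k * log 2) ∧ (Lnk (0, 0) (cc k i) (k / M) F ∧
        Lnk (0, 0) (2 ^ (k - 1) * cc k i) (k / M) F))
    (fun k => B ((2 ^ (k + 2) * cc k (mm a k) : ℕ) : ℤ)) k0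
    (fun k i hi => B_mono (by exact_mod_cast cc_S hi))
    (by
      intro k hk i F F' hFF
      obtain ⟨g1, _, _⟩ := hk0 k hk
      have h8 := hrad k i (by omega)
      have h9 := hcj k i (by omega)
      have h10 := hcp' k i
      have hc := cc_pos k i
      have h4 : 4 * cc k i ≤ 2 ^ (k + 2) * cc k i := by omega
      have h11 : (cc k i : ℤ) - 1 ≤ ((2 ^ (k - 1) * cc k i : ℕ) : ℤ) - 1 := by
        have : (cc k i : ℤ) ≤ ((2 ^ (k - 1) * cc k i : ℕ) : ℤ) := by exact_mod_cast h10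
        linarith
      rw [U_congr h4 (F := F) (F' := F') (fun e he he' => hFF e he
        (fun h => he' (B_mono (by push_cast; omega) h))),
        lnk_congr hc (F := F) (F' := F') (fun e he he' => hFF e
          (B_mono (by exact_mod_cast h8) he) he'),
        lnk_congr (hc.trans h10) (F := F) (F' := F') (fun e he he' => hFF e
          (B_mono (by exact_mod_cast h9.le) he) (fun h => he' (B_mono h11 h)))])
    (by
      intro k hk i hi
      obtain ⟨g1, g2, g3, g4, g5⟩ := hk0 k hk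
      have h8 := hrad k i (by omega)
      have h9 := hcj k i (by omega)
      have h10 := hcp' k i
      have hc := cc_pos k i
      have h4 : 4 * cc k i ≤ 2 ^ (k + 2) * cc k i := by omega
      have hcp : (0:ℝ) < cc k i := by exact_mod_cast hc
      obtain ⟨N, hN⟩ : ∃ N, N = 2 ^ (k + 2) * cc k (mm a k) := ⟨_, rfl⟩
      have hNi : 2 ^ (k + 2) * cc k i ≤ N := by rw [hN]; exact cc_S hi
      rw [← hN]
      have e1 : ((2 ^ (k + 2) * cc k i : ℕ) : ℝ) / ((4 * cc k i : ℕ) : ℝ) = 2 ^ k := by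
        push_cast
        rw [mul_div_mul_right _ _ hcp.ne', pow_add]
        norm_num
      have h6 := hdev (4 * cc k i) (2 ^ (k + 2) * cc k i) (by omega) h4 (by rw [e1]; exact g3)
        (B (N:ℤ)) (sdiff_subset.trans (B_mono (by exact_mod_cast hNi)))
      rw [e1, show -(gam s) - ε = -(gam s + ε) by ring] at h6
      have h7 := hk1 k g2 (cc k i) N hc (h8.trans hNi)
      have h7' := hk1 k g2 (2 ^ (k - 1) * cc k i) N (hc.trans h10) (h9.le.trans hNi)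
      have h11 := Pr_and_ge ok2 (B (N:ℤ))
        (fun F => Lnk (0, 0) (cc k i) (k / M) F)
        (fun F => Lnk (0, 0) (2 ^ (k - 1) * cc k i) (k / M) F)
      have h12 := Pr_and_ge ok2 (B (N:ℤ))
        (fun F => |(U (4 * cc k i) (2 ^ (k + 2) * cc k i) F : ℝ) - dL s * (k * log 2)| ≤
          δ * (k * log 2))
        (fun F => Lnk (0, 0) (cc k i) (k / M) F ∧ Lnk (0, 0) (2 ^ (k - 1) * cc k i) (k / M) F)
      rw [log_pow] at h6
      rw [Pr_not] at h7 h7'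
      linarith)
  filter_upwards [h] with ω hω
  filter_upwards [tlog.eventually hω, tlog.eventually_ge_atTop k0, eventually_ge_atTop 1]
    with b hb hbk hb1
  obtain ⟨k, hk⟩ : ∃ k, k = Nat.log 2 b := ⟨_, rfl⟩
  rw [← hk] at hb hbk
  obtain ⟨l1, l2, l3, l4⟩ := lg hb1 hk
  obtain ⟨g1, g2, g3, g4, g5⟩ := hk0 k hbk
  obtain ⟨i, hi, hU, hL, hL'⟩ := hb
  have hc := cc_pos k i
  refine ⟨2 * cc k i, by omega, cc_le ha hi l1, ?_⟩
  obtain ⟨N, hN⟩ : ∃ N, N = 2 ^ (k + 2) * cc k (mm a k) := ⟨_, rfl⟩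
  rw [← hN] at hU hL hL'
  have h8 := hrad k i (by omega)
  have h4 : 4 * cc k i ≤ 2 ^ (k + 2) * cc k i := by omega
  have h5 : 2 ^ (k + 2) * cc k i ≤ N := by
    rw [hN]
    exact cc_S hi
  have h51 : 2 ^ (k + 1) * cc k i ≤ 2 ^ (k + 2) * cc k i :=
    Nat.mul_le_mul_right _ (Nat.pow_le_pow_right (by norm_num) (by omega))
  obtain ⟨F, hF⟩ : ∃ F, F = op (B (N:ℤ)) ω := ⟨_, rfl⟩
  rw [← hF] at hU hL hL'
  have h6 : T (2 ^ (k + 2) * cc k i) F ≤ T (2 * cc k i) F +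
      U (4 * cc k i) (2 ^ (k + 2) * cc k i) F + (4 + 18 * (k / M)) := in_bound hc h8 hL
  have h61 := out_link hc (by omega) hL'
  have h62 := T_super (by omega : 2 * cc k i < 4 * cc k i) h4 F
  obtain ⟨u, hu⟩ : ∃ u : ℕ, u = U (4 * cc k i) (2 ^ (k + 2) * cc k i) F := ⟨_, rfl⟩
  rw [← hu] at hU h6 h62
  rw [hF, T_op h5, T_op (by omega)] at h6
  rw [hF, T_op h5, T_op (h51.trans h5)] at h61
  rw [hF, T_op h5, T_op (by omega)] at h62
  have h7 : Lw ω (b * (2 * cc k i)) ≤ Lw ω (2 ^ (k + 2) * cc k i) := by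
    apply Lw_mono
    calc b * (2 * cc k i) ≤ 2 ^ (k + 1) * (2 * cc k i) := Nat.mul_le_mul_right _ l2.le
      _ = _ := by rw [pow_succ 2 (k + 1)]; ring
  have h71 : Lw ω (2 ^ (k + 1) * cc k i) ≤ Lw ω (b * (2 * cc k i)) := by
    apply Lw_mono
    calc 2 ^ (k + 1) * cc k i = 2 ^ k * (2 * cc k i) := by rw [pow_succ]; ring
      _ ≤ _ := Nat.mul_le_mul_right _ l1
  have i1 : Lw ω (b * (2 * cc k i)) ≤ Lw ω (2 * cc k i) + u + (4 + 20 * (k / M)) := by omega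
  have i2 : Lw ω (2 * cc k i) + u ≤ Lw ω (b * (2 * cc k i)) + (4 + 20 * (k / M)) := by omega
  have i1' : (Lw ω (b * (2 * cc k i)) : ℝ) ≤ Lw ω (2 * cc k i) + u +
    (4 + 20 * ((k / M : ℕ) : ℝ)) := by exact_mod_cast i1
  have i2' : (Lw ω (2 * cc k i) : ℝ) + u ≤ Lw ω (b * (2 * cc k i)) +
    (4 + 20 * ((k / M : ℕ) : ℝ)) := by exact_mod_cast i2
  have h9 : 20 * ((k / M : ℕ) : ℝ) ≤ δ * log 2 * k := by
    have hMp : (0:ℝ) < M := by exact_mod_cast hM1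
    have d1 : ((k / M : ℕ) : ℝ) ≤ (k:ℝ) / M := Nat.cast_div_le
    have d2 : ((k / M : ℕ) : ℝ) * M ≤ k := by
      rwa [le_div_iff₀ hMp] at d1
    have d3 : 0 ≤ ((k / M : ℕ) : ℝ) := Nat.cast_nonneg _
    calc 20 * ((k / M : ℕ) : ℝ) ≤ (δ * log 2 * M) * ((k / M : ℕ) : ℝ) :=
          mul_le_mul_of_nonneg_right hM d3
      _ = δ * log 2 * (((k / M : ℕ) : ℝ) * M) := by ring
      _ ≤ _ := mul_le_mul_of_nonneg_left d2 (by positivity)
  obtain ⟨v1, v2⟩ := abs_le.1 hU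
  have w1 := mul_le_mul_of_nonneg_left l3 hdL.le
  have w2 := mul_le_mul_of_nonneg_left l4 hdL.le
  have w3 := mul_le_mul_of_nonneg_left l3 hδ0.le
  rw [abs_le]
  constructor <;> linarith

end Pool.Agent.U154.ER
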